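import Pool.Agent.Lib.MP_2116eb_an.T1
import Pool.Agent.Lib.MP_2116eb_an.T2
import Pool.Agent.Lib.MP_2116eb_an.T3
import Pool.Agent.Lib.MP_2116eb_an.T5
import Pool.Agent.Lib.MP_2116eb_an.T6

/-!
# Variable exponent Triebel-Lizorkin spaces with `q⁺ = ∞` (MP_2116eb_an, Q1)

The space `F^{s(·)}_{p(·),q(·)}(ℝⁿ)` does not depend on the resolution of unity when
`p, q ∈ 𝒫^log`, `p⁺ < ∞` and `s ∈ C^log_loc`; the exponent `q` is an arbitrary element of
`𝒫^log`, in particular `q⁺ = ∞` is allowed, and `q` may take the value `∞`, on a set of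
positive measure or not, and need not be constant.

All the definitions are in `Pool.Agent.Lib.MP_2116eb_an.Defs`.

The proof.  A vector valued inequality in `L_{P(·)}(ℓ_{q(·)})`, `1 < P⁻ ≤ P⁺ < ∞`, `1 ≤ q ≤ ∞`, for
the averages `η_{j,M} * ·` holds without any upper bound on `q` (`T3`); it is deduced from the
maximal inequality and from its dual (`T2`) by the pointwise splitting of a sequence into its
large and its small parts.  The pieces of `f` for two resolutions of unity are compared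
pointwise by the `r`-trick (`T5`), and `T6` puts these together.
-/

set_option autoImplicit false

open MeasureTheory SchwartzMap FourierTransform
open scoped ENNReal NNReal

noncomputable section

namespace Pool.Agent.Results.MP_2116eb_an.ResolutionIndependence

open Pool.Agent.Lib.MP_2116eb_an

/-- **Independence of the resolution of unity.**  Let `n ≥ 1`, `p, q ∈ 𝒫^log`, `p⁺ < ∞`,
`s ∈ C^log_loc`.  For any two admissible functions `φ, ψ` the spaces
`F^{s(·)}_{p(·),q(·)}` built from `φ` and from `ψ` are the same set of tempered distributions and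
their quasi-norms are equivalent.  (`ρ = 1` is the problem for the Fourier transform with kernel
`exp (-2 π i ⟨x, ξ⟩)`, `ρ = 1 / (2 π)` is the problem for the one with kernel
`exp (-i ⟨x, ξ⟩)`.) -/
theorem result : ∀ (n : ℕ), 0 < n → ∀ (ρ : ℝ), 0 < ρ →
    ∀ (p q : E n → ℝ≥0∞) (s : E n → ℝ), PLog p → essSup p volume < ∞ → PLog q → LogLoc s →
    ∀ (φ ψ : 𝓢(E n, ℂ)), Admissible ρ φ → Admissible ρ ψ →
      {f : 𝓢'(E n, ℂ) | tlNorm φ p q s f < ∞} = {f : 𝓢'(E n, ℂ) | tlNorm ψ p q s f < ∞} ∧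
      ∃ C : ℝ≥0, ∀ f : 𝓢'(E n, ℂ),
        tlNorm φ p q s f ≤ C * tlNorm ψ p q s f ∧ tlNorm ψ p q s f ≤ C * tlNorm φ p q s f := by
  intro n hn ρ hρ p q s hp hp' hq hs φ ψ hφ hψ
  have hmax : MaxThm n := fun t ht M hM => t1_maximal hn t ht M hM
  obtain ⟨C, hC⟩ := t6_final_of hn ρ p q s hp hp' hq hs φ ψ hφ hψ
    (fun P hP a b ha hab q hqm hq1 hq =>
      t3_vector_of P a b ha hab hP.1.1.measurable (t2_maximal hmax hn P hP a b ha hab)
        (t2_dual hmax hn P hP a b ha hab) q hqm hq1 hq)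
    (fun φ ψ hφ hψ r hr hr1 M hM => t5_pointwise hn ρ hρ φ ψ hφ hψ r hr hr1 M hM)
  refine ⟨?_, C, hC⟩
  ext f
  refine ⟨fun h => ?_, fun h => ?_⟩
  · exact (hC f).2.trans_lt (ENNReal.mul_lt_top ENNReal.coe_lt_top h)
  · exact (hC f).1.trans_lt (ENNReal.mul_lt_top ENNReal.coe_lt_top h)

end Pool.Agent.Results.MP_2116eb_an.ResolutionIndependence
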